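import Pool.Agent.H81.Q.Fam
import Pool.Agent.H26.P3.End

set_option autoImplicit false

/-!
A rooted code with sides and without `{0, z}`-words is the code of a tree (MP_a46c6f_co).
-/

namespace Pool.Agent.H81.Q

open Pool.Agent.H98.Code Pool.Agent.H17.TR Pool.Agent.H6.P4 Pool.Agent.H77.Q
open Pool.Agent.H17.P3 (Pairs IsP4 Bad P4Split)

variable {V : Type} [Fintype V] [DecidableEq V]
variable {B : Submodule (ZMod 2) (V → K)} {H : V → V → ZMod 2} {e : V}
variable {S : (V → K) → Finset V → Prop} {M : V → V → ZMod 2}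

theorem fam2 (hI : Inv H e M) {a b : V} (h : CP M a b) : Fam M e ![a, b] := by
  obtain ⟨hab, hne⟩ := h
  have hs := hI.sym
  have he : ∀ x, M e x = 0 := fun x => by rw [hs, hI.h0]
  have hm := (ne_iff' _ _).1 hne
  have hae : a ≠ e := by
    rintro rfl
    exact hne (by rw [he, he])
  have hbe : b ≠ e := by
    rintro rfl
    apply hne
    rw [hI.h0, hab, hI.h0]
  have hab' : a ≠ b := by
    rintro rfl
    exact hne rfl
  refine ⟨by decide, by norm_num, ?_, ?_, ?_, ?_⟩
  · intro i j hij
    fin_cases i <;> fin_cases j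
    · rfl
    · exact absurd hij hab'
    · exact absurd hij.symm hab'
    · rfl
  · intro i
    fin_cases i
    · exact hae
    · exact hbe
  · intro j
    rw [Fin.sum_univ_two]
    fin_cases j
    · change M a a + M b a = 1
      rw [hs b a, hm]
      generalize M a a = B
      revert B
      decide
    · change M a b + M b b = 1
      rw [← hab, hm]
      generalize M a a = B
      revert B
      decide
  · intro β h1 h2
    rw [Fin.sum_univ_two] at h1
    have h3 := h2 0
    have h4 := h2 1
    rw [Fin.sum_univ_two] at h3 h4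
    change β 0 * M a a + β 1 * M b a = β 0 at h3
    change β 0 * M a b + β 1 * M b b = β 1 at h4
    have h5 : β 0 = β 1 := CharTwo.add_eq_zero.1 h1
    rcases z2 (β 0) with h6 | h6
    · left
      intro j
      fin_cases j
      · exact h6
      · exact h5 ▸ h6
    · right
      intro j
      fin_cases j
      · exact h6
      · exact h5 ▸ h6

theorem fam4 (hI : Inv H e M) {a b c d : V} (h : CQ M a b c d) : Fam M e ![a, b, c, d] := by
  obtain ⟨⟨hab, hbc, hcd, hac, had, hbd⟩, ha, hb, hcc, hd⟩ := h
  have hs := hI.sym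
  have he : ∀ x, M e x = 0 := fun x => by rw [hs, hI.h0]
  have hba : M b a = 1 := by rw [hs, hab]
  have hcb : M c b = 1 := by rw [hs, hbc]
  have hdc : M d c = 1 := by rw [hs, hcd]
  have hca : M c a = 0 := by rw [hs, hac]
  have hda : M d a = 0 := by rw [hs, had]
  have hdb : M d b = 0 := by rw [hs, hbd]
  have h01 : (0 : ZMod 2) ≠ 1 := by decide
  have nab : a ≠ b := by rintro rfl; exact h01 (ha.symm.trans hb)
  have nac : a ≠ c := by rintro rfl; exact h01 (ha.symm.trans hcc)
  have nad : a ≠ d := by rintro rfl; exact h01 (hdb.symm.trans hab)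
  have nbc : b ≠ c := by rintro rfl; exact h01 (hbd.symm.trans hcd)
  have nbd : b ≠ d := by rintro rfl; exact h01 (hd.symm.trans hb)
  have ncd : c ≠ d := by rintro rfl; exact h01 (hd.symm.trans hcc)
  refine ⟨by decide, by norm_num, ?_, ?_, ?_, ?_⟩
  · intro i j hij
    fin_cases i <;> fin_cases j <;> first
      | rfl
      | exact absurd hij nab
      | exact absurd hij nac
      | exact absurd hij nad
      | exact absurd hij nbc
      | exact absurd hij nbd
      | exact absurd hij ncd
      | exact absurd hij.symm nab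
      | exact absurd hij.symm nac
      | exact absurd hij.symm nad
      | exact absurd hij.symm nbc
      | exact absurd hij.symm nbd
      | exact absurd hij.symm ncd
  · intro i
    fin_cases i
    · change a ≠ e
      rintro rfl
      exact h01 ((he b).symm.trans hab)
    · change b ≠ e
      rintro rfl
      exact h01 ((he c).symm.trans hbc)
    · change c ≠ e
      rintro rfl
      exact h01 ((he d).symm.trans hcd)
    · change d ≠ e
      rintro rfl
      exact h01 ((he c).symm.trans hdc)
  · intro j
    rw [Fin.sum_univ_four]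
    fin_cases j
    · change M a a + M b a + M c a + M d a = 1
      rw [ha, hba, hca, hda]
      decide
    · change M a b + M b b + M c b + M d b = 1
      rw [hab, hb, hcb, hdb]
      decide
    · change M a c + M b c + M c c + M d c = 1
      rw [hac, hbc, hcc, hdc]
      decide
    · change M a d + M b d + M c d + M d d = 1
      rw [had, hbd, hcd, hd]
      decide
  · intro β h1 h2
    have h3 := h2 0
    have h4 := h2 1
    have h5 := h2 2
    have h6 := h2 3
    rw [Fin.sum_univ_four] at h3 h4 h5 h6
    change β 0 * M a a + β 1 * M b a + β 2 * M c a + β 3 * M d a = β 0 at h3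
    change β 0 * M a b + β 1 * M b b + β 2 * M c b + β 3 * M d b = β 1 at h4
    change β 0 * M a c + β 1 * M b c + β 2 * M c c + β 3 * M d c = β 2 at h5
    change β 0 * M a d + β 1 * M b d + β 2 * M c d + β 3 * M d d = β 3 at h6
    rw [ha, hba, hca, hda] at h3
    rw [hab, hb, hcb, hdb] at h4
    rw [hac, hbc, hcc, hdc] at h5
    rw [had, hbd, hcd, hd] at h6
    have h7 : (β 0 = 0 ∧ β 1 = 0 ∧ β 2 = 0 ∧ β 3 = 0) ∨
        (β 0 = 1 ∧ β 1 = 1 ∧ β 2 = 1 ∧ β 3 = 1) := by
      revert h3 h4 h5 h6
      generalize β 0 = A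
      generalize β 1 = B
      generalize β 2 = C
      generalize β 3 = D
      revert A B C D
      decide
    rcases h7 with ⟨e1, e2, e3, e4⟩ | ⟨e1, e2, e3, e4⟩
    · left
      intro j
      fin_cases j
      · exact e1
      · exact e2
      · exact e3
      · exact e4
    · right
      intro j
      fin_cases j
      · exact e1
      · exact e2
      · exact e3
      · exact e4

theorem sw2 (M : V → V → ZMod 2) (a b x : V) : sw M ![a, b] x = M a x + M b x := by
  unfold sw
  rw [Fin.sum_univ_two]
  rfl

theorem sw4 (M : V → V → ZMod 2) (a b c d x : V) :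
    sw M ![a, b, c, d] x = M a x + M b x + M c x + M d x := by
  unfold sw
  rw [Fin.sum_univ_four]
  rfl

/-- own points of a pair -/
theorem own2 (hI : Inv H e M) (hH : IsMat B H) (hS : RSides B e S) {a b : V} (h : CP M a b)
    {Y : Finset V} (hSY : S (wd H (sw M ![a, b])) Y) :
    ∀ y ∈ (Y : Set V), Half M ![a, b] (Y : Set V) y := by
  intro y hy
  have hp := fam2 hI h
  have hy0 := (lap_of_zero (hS.zero _ _ hSY y hy)).1
  rw [sw2] at hy0
  have hy1 : M a y = M b y := CharTwo.add_eq_zero.1 hy0
  refine half_of_own hI hp hH hS hSY hy (M a y) (fun _ => 0) ?_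
  intro j
  simp only [zero_mul, Finset.sum_const_zero, add_zero]
  fin_cases j
  · change M y a + M a y = 0
    rw [hI.sym y a, CharTwo.add_self_eq_zero]
  · change M y b + M a y = 0
    rw [hI.sym y b, hy1, CharTwo.add_self_eq_zero]

/-- own points of a path -/
theorem own4 (hI : Inv H e M) (hH : IsMat B H) (hS : RSides B e S) {a b c d : V}
    (h : CQ M a b c d) {Y : Finset V} (hSY : S (wd H (sw M ![a, b, c, d])) Y) :
    ∀ y ∈ (Y : Set V), Half M ![a, b, c, d] (Y : Set V) y := by
  intro y hy
  have hp := fam4 hI h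
  have hy0 := (lap_of_zero (hS.zero _ _ hSY y hy)).1
  rw [sw4] at hy0
  obtain ⟨⟨hab, hbc, hcd, hac, had, hbd⟩, ha, hb, hcc, hd⟩ := h
  have hs := hI.sym
  have hba : M b a = 1 := by rw [hs, hab]
  have hcb : M c b = 1 := by rw [hs, hbc]
  have hdc : M d c = 1 := by rw [hs, hcd]
  have hca : M c a = 0 := by rw [hs, hac]
  have hda : M d a = 0 := by rw [hs, had]
  have hdb : M d b = 0 := by rw [hs, hbd]
  refine half_of_own hI hp hH hS hSY hy 0 ![0, M a y, M b y, M b y + M d y] ?_
  intro j
  rw [Fin.sum_univ_four]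
  fin_cases j
  · change M y a + 0 + (0 * M a a + M a y * M b a + M b y * M c a + (M b y + M d y) * M d a) = 0
    rw [ha, hba, hca, hda, hs y a]
    revert hy0
    generalize M a y = A
    generalize M b y = B
    generalize M c y = C
    generalize M d y = D
    revert A B C D
    decide
  · change M y b + 0 + (0 * M a b + M a y * M b b + M b y * M c b + (M b y + M d y) * M d b) = M a y
    rw [hab, hb, hcb, hdb, hs y b]
    revert hy0
    generalize M a y = A
    generalize M b y = B
    generalize M c y = C
    generalize M d y = D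
    revert A B C D
    decide
  · change M y c + 0 + (0 * M a c + M a y * M b c + M b y * M c c + (M b y + M d y) * M d c) = M b y
    rw [hac, hbc, hcc, hdc, hs y c]
    revert hy0
    generalize M a y = A
    generalize M b y = B
    generalize M c y = C
    generalize M d y = D
    revert A B C D
    decide
  · change M y d + 0 + (0 * M a d + M a y * M b d + M b y * M c d + (M b y + M d y) * M d d) =
      M b y + M d y
    rw [had, hbd, hcd, hd, hs y d]
    revert hy0
    generalize M a y = A
    generalize M b y = B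
    generalize M c y = C
    generalize M d y = D
    revert A B C D
    decide

/-- the family `q` lives on the side `Y` of the pair `{a, b}` -/
theorem nest (hI : Inv H e M) (hH : IsMat B H) (hS : RSides B e S) {a b : V} (h : CP M a b)
    {Y : Finset V} (hSY : S (wd H (sw M ![a, b])) Y) {m : ℕ} {q : Fin m → V} (hq : Fam M e q)
    (hqY : ∀ j, q j ∈ Y ∨ q j = a) (hqa : (∃ j, q j = a) → sw M q b = 0)
    (hqa' : (∀ j, q j ≠ a) → sw M q a = 0 ∧ sw M q b = 0)
    (hout : ∀ x, x ∉ Y → M a x = M b x → sw M q x = 0) :
    (∃ g, Half M q ∅ g) ∨ ∃ Y' : Finset V, Y' ⊆ Y ∧ Y'.Nonempty ∧ S (wd H (sw M q)) Y' := by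
  have hp := fam2 hI h
  have hYu : ∀ y ∈ Y, wd H (sw M ![a, b]) y = 0 := hS.zero _ _ hSY
  have hua : wd H (sw M ![a, b]) a ≠ 0 := u_p hI hp 0
  have hub : wd H (sw M ![a, b]) b ≠ 0 := u_p hI hp 1
  have hab' : b ≠ a := by
    rintro rfl
    exact h.2 rfl
  rcases hS.mono _ _ hSY (u_irr hI hp hH) (wd H (sw M q)) (wd_mem hH _) (u_zf hI hq)
      (u_ne hI hq) (u_irr hI hq hH) (by
        intro v hv
        by_cases hvq : ∃ j, v = q j
        · obtain ⟨j, rfl⟩ := hvq
          have hqj : q j = a := by
            rcases hqY j with h1 | h1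
            · exact absurd (hYu _ h1) hv
            · exact h1
          right
          refine wd_eq ?_ ?_
          · rw [sw_p hI hq, hqj]
            exact (sw_p hI hp 0).symm
          · rw [lap_p hI hq, hqj]
            exact (lap_p hI hp 0).symm
        · push Not at hvq
          have hl := lap_0 hI hq hvq
          by_cases hvb : v = b
          · left
            subst hvb
            refine zero_of_lap ?_ hl
            by_cases h1 : ∃ j, q j = a
            · exact hqa h1
            · push Not at h1
              exact (hqa' h1).2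
          by_cases hva : v = a
          · left
            subst hva
            exact zero_of_lap (hqa' fun j hj => hvq j hj.symm).1 hl
          have hl' : Lap H (sw M ![a, b]) v = 0 := by
            apply lap_0 hI hp
            intro j
            fin_cases j
            · exact hva
            · exact hvb
          rcases z2 (sw M q v) with h1 | h1
          · exact Or.inl (zero_of_lap h1 hl)
          · right
            exact wd_eq (by rw [h1, of_u hI hp hv]) (by rw [hl, hl'])) (by
        intro v hv hvY
        apply u_0 hI hq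
        apply hout v hvY
        have h1 := (lap_of_zero hv).1
        rw [sw2] at h1
        exact CharTwo.add_eq_zero.1 h1) with ⟨g, hg⟩ | ⟨Y', h1, h2, h3⟩
  · exact Or.inl ⟨g, half_of_splits hI hq hH hg⟩
  · exact Or.inr ⟨Y', h1, h2, h3⟩

/-- **the matrix of a rooted code with sides** -/
theorem exists_matrix_of_sides (hH : IsMat B H) (hS : RSides B e S) :
    ∃ M : V → V → ZMod 2, (∀ x y, M x y = M y x) ∧ (∀ x, M e x = 0) ∧
      (∀ u, u ≠ e → ∀ v, (∑ w, H u w * (M u v + M w v)) = if u = v then 1 else 0) ∧
      Pairs M ∧ P4Split M := by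
  classical
  obtain ⟨M, h0, hl⟩ := exists_invR hH hS
  have hI : Inv H e M := ⟨hH.sym, h0, hl⟩
  have hsym := hI.sym
  have he : ∀ x, M e x = 0 := fun x => by rw [hsym, h0]
  refine ⟨M, hsym, he, ?_, ?_⟩
  · intro u hu v
    have h1 := hl v u
    rw [if_neg hu, add_zero] at h1
    rw [← h1]
    unfold Lap
    refine Finset.sum_congr rfl fun w _ => ?_
    rw [hsym u v, hsym w v]
  have exA : ∀ {n : ℕ} {p : Fin n → V}, Fam M e p → (∃ g, Half M p ∅ g) ∨
      ∃ Y : Finset V, Y.Nonempty ∧ S (wd H (sw M p)) Y := by
    intro n p hp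
    rcases hS.ex _ (wd_mem hH _) (u_zf hI hp) (u_e hI hp) (u_ne hI hp) (u_irr hI hp hH) with
      ⟨g, hg⟩ | h
    · exact Or.inl ⟨g, half_of_splits hI hp hH hg⟩
    · exact Or.inr h
  refine own_rel hsym
    (fun a b Y => ∃ F : Finset V, (F : Set V) = Y ∧ S (wd H (sw M ![a, b])) F)
    (fun a b c d Y => ∃ F : Finset V, (F : Set V) = Y ∧ S (wd H (sw M ![a, b, c, d])) F)
    ?_ ?_ ?_ ?_ ?_ ?_
  · intro a b h
    rcases exA (fam2 hI h) with h1 | ⟨Y, h1, h2⟩
    · exact Or.inl h1
    · exact Or.inr ⟨(Y : Set V), h1, Y, rfl, h2⟩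
  · rintro a b _ h ⟨F, rfl, hF⟩
    exact own2 hI hH hS h hF
  · intro a b c d h
    rcases exA (fam4 hI h) with h1 | ⟨Y, h1, h2⟩
    · exact Or.inl h1
    · exact Or.inr ⟨(Y : Set V), h1, Y, rfl, h2⟩
  · rintro a b c d _ h ⟨F, rfl, hF⟩
    exact own4 hI hH hS h hF
  · rintro a b _ h ⟨F, rfl, hF⟩ x y hxy hx hy
    have own := own2 hI hH hS h hF
    have hm := (ne_iff' _ _).1 h.2
    obtain ⟨x1, x2, x3⟩ := half2 hsym h (own x hx)
    have hax : x ≠ a := by
      rintro rfl
      have := x1
      revert this
      generalize M x x = A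
      revert A
      decide
    suffices hn : (∃ g, Half M ![x, y] ∅ g) ∨ ∃ Y' : Finset V, Y' ⊆ F ∧ Y'.Nonempty ∧
        S (wd H (sw M ![x, y])) Y' by
      rcases hn with h1 | ⟨Y', h1, h2, h3⟩
      · exact Or.inl h1
      · exact Or.inr ⟨(Y' : Set V), Finset.coe_subset.2 h1, h2, Y', rfl, h3⟩
    apply nest hI hH hS h hF (fam2 hI hxy)
    · intro j
      fin_cases j
      · exact Or.inl hx
      · rcases hy with h1 | h1
        · exact Or.inl h1
        · exact Or.inr h1
    · rintro ⟨j, hj⟩
      rw [sw2]
      have hya : y = a := by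
        fin_cases j
        · exact absurd hj hax
        · exact hj
      rw [hya, x2, hm, CharTwo.add_self_eq_zero]
    · intro hne
      have hyF : y ∈ (F : Set V) := by
        rcases hy with h1 | h1
        · exact h1
        · exact absurd h1 (hne 1)
      obtain ⟨y1, y2, y3⟩ := half2 hsym h (own y hyF)
      rw [sw2, sw2, x1, y1, x2, y2]
      exact ⟨CharTwo.add_self_eq_zero _, CharTwo.add_self_eq_zero _⟩
    · intro v hv hv2
      rw [sw2, x3 v hv hv2]
      rcases hy with h1 | h1
      · rw [(half2 hsym h (own y h1)).2.2 v hv hv2, CharTwo.add_self_eq_zero]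
      · rw [h1, CharTwo.add_self_eq_zero]
  · rintro a b _ h ⟨F, rfl, hF⟩ p q r s hc hp hq hr hs
    have own := own2 hI hH hS h hF
    obtain ⟨p1, p2, p3⟩ := half2 hsym h (own p hp)
    obtain ⟨q1, q2, q3⟩ := half2 hsym h (own q hq)
    obtain ⟨r1, r2, r3⟩ := half2 hsym h (own r hr)
    obtain ⟨s1, s2, s3⟩ := half2 hsym h (own s hs)
    have four : ∀ A : ZMod 2, A + A + A + A = 0 := by decide
    have haF : ∀ x ∈ (F : Set V), x ≠ a := by
      rintro x hx rfl
      have := (half2 hsym h (own x hx)).1
      revert this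
      generalize M x x = A
      revert A
      decide
    suffices hn : (∃ g, Half M ![p, q, r, s] ∅ g) ∨ ∃ Y' : Finset V, Y' ⊆ F ∧ Y'.Nonempty ∧
        S (wd H (sw M ![p, q, r, s])) Y' by
      rcases hn with h1 | ⟨Y', h1, h2, h3⟩
      · exact Or.inl h1
      · exact Or.inr ⟨(Y' : Set V), Finset.coe_subset.2 h1, h2, Y', rfl, h3⟩
    apply nest hI hH hS h hF (fam4 hI hc)
    · intro j
      left
      fin_cases j
      · exact hp
      · exact hq
      · exact hr
      · exact hs
    · rintro ⟨j, hj⟩
      exfalso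
      fin_cases j
      · exact haF p hp hj
      · exact haF q hq hj
      · exact haF r hr hj
      · exact haF s hs hj
    · intro _
      rw [sw4, sw4, p1, q1, r1, s1, p2, q2, r2, s2]
      exact ⟨four _, four _⟩
    · intro v hv hv2
      rw [sw4, p3 v hv hv2, q3 v hv hv2, r3 v hv hv2, s3 v hv hv2]
      exact four _

/-- **a rooted code with sides is the code of a tree** -/
theorem tree_of_sides (hB : IsCode B) (hz : NoZ B) (hS : RSides B e S) : (graph B).IsTree := by
  obtain ⟨H, hs, hm⟩ := exists_matrix hB hz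
  have hH : IsMat B H := ⟨hs, hm⟩
  have hH' : Pool.Agent.H32.AA.IsMat B H := ⟨hs, hm⟩
  have heq : graph B = GrH H := by
    ext v w
    rw [Pool.Agent.H32.AA.adj_iff hH', hH.adj]
  rw [heq]
  obtain ⟨M, h1, h2, h3, h4, h5⟩ := exists_matrix_of_sides hH hS
  exact Pool.Agent.H26.P3.tree_end V e H M hs h1 h2 h3 h4
    (Pool.Agent.H81.P4.P3_holds V M h1 h4 h5)

end Pool.Agent.H81.Q
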