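import Mathlib
import Pool.Agent.H81.P4.Main

set_option autoImplicit false

/-!
Closed pairs and closed paths which split or have own points (MP_a46c6f_co): the matrix part of the
tree theorem for critical pairs.
-/

namespace Pool.Agent.H81.Q

open Pool.Agent.H17.P3 (Pairs IsP4 Bad P4Split)

variable {X : Type}

/-- `y` is half of the closed family `p` outside `Y`. For `Y = ∅` this says that the word of `p`
splits at `y`. -/
def Half (M : X → X → ZMod 2) {n : ℕ} (p : Fin n → X) (Y : Set X) (y : X) : Prop :=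
  ∃ α : Fin n → ZMod 2, ∑ i, α i = 1 ∧ (∀ j, M y (p j) = α j + ∑ i, α i * M (p i) (p j)) ∧
    ∀ x, x ∉ Y → ∑ i, M (p i) x = 0 → M y x = ∑ i, α i * M (p i) x

/-- closed pair -/
def CP (M : X → X → ZMod 2) (a b : X) : Prop := M a a = M b b ∧ M a b ≠ M a a

/-- closed path -/
structure CQ (M : X → X → ZMod 2) (a b c d : X) : Prop where
  p4 : IsP4 M a b c d
  a0 : M a a = 0
  b1 : M b b = 1
  c1 : M c c = 1
  d0 : M d d = 0

theorem ne_iff' : ∀ a b : ZMod 2, a ≠ b ↔ a = b + 1 := by decide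

theorem half2 {M : X → X → ZMod 2} (hs : ∀ x y, M x y = M y x) {a b : X} (h : CP M a b)
    {Y : Set X} {y : X} (hy : Half M ![a, b] Y y) :
    M y a = M a a + 1 ∧ M y b = M a a + 1 ∧ ∀ x, x ∉ Y → M a x = M b x → M y x = M a x := by
  obtain ⟨α, h1, h2, h3⟩ := hy
  obtain ⟨hab, hne⟩ := h
  have hmab := (ne_iff' _ _).1 hne
  have h2a := h2 0
  have h2b := h2 1
  simp only [Fin.sum_univ_two, Matrix.cons_val_zero, Matrix.cons_val_one] at h1 h2a h2b h3
  rw [hs b a, hmab] at h2a
  rw [← hab, hmab] at h2b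
  refine ⟨?_, ?_, ?_⟩
  · rw [h2a]
    revert h1
    generalize α 0 = A
    generalize α 1 = B
    generalize M a a = C
    revert A B C
    decide
  · rw [h2b]
    revert h1
    generalize α 0 = A
    generalize α 1 = B
    generalize M a a = C
    revert A B C
    decide
  · intro x hx hx2
    rw [h3 x hx (by rw [hx2]; exact CharTwo.add_self_eq_zero _), ← hx2, ← add_mul, h1, one_mul]

theorem half2' {M : X → X → ZMod 2} (hs : ∀ x y, M x y = M y x) {a b : X} (h : CP M a b)
    {Y : Set X} {y : X} (h1 : M y a = M a a + 1) (h2 : M y b = M a a + 1)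
    (h3 : ∀ x, x ∉ Y → M a x = M b x → M y x = M a x) : Half M ![a, b] Y y := by
  obtain ⟨hab, hne⟩ := h
  have hmab := (ne_iff' _ _).1 hne
  refine ⟨![1, 0], by simp, ?_, ?_⟩
  · intro j
    fin_cases j
    · simp only [Fin.sum_univ_two, Matrix.cons_val_zero, Matrix.cons_val_one]
      change M y a = 1 + (1 * M a a + 0 * M b a)
      rw [h1]; ring
    · simp only [Fin.sum_univ_two, Matrix.cons_val_zero, Matrix.cons_val_one]
      change M y b = 0 + (1 * M a b + 0 * M b b)
      rw [h2, hmab]; ring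
  · intro x hx hx2
    simp only [Fin.sum_univ_two, Matrix.cons_val_zero, Matrix.cons_val_one] at hx2 ⊢
    rw [h3 x hx (CharTwo.add_eq_zero.1 hx2)]
    ring

theorem half4 {M : X → X → ZMod 2} (hs : ∀ x y, M x y = M y x) {a b c d : X} (h : CQ M a b c d)
    {Y : Set X} {y : X} (hy : Half M ![a, b, c, d] Y y) :
    Bad M a b c d y ∧ (∀ x, x ∉ Y → M a x = M b x → M a x = M c x → M a x = M d x →
      M y x = M a x) := by
  obtain ⟨α, h1, h2, h3⟩ := hy
  obtain ⟨⟨hab, hbc, hcd, hac, had, hbd⟩, ha, hb, hcc, hd⟩ := h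
  have hba : M b a = 1 := by rw [hs, hab]
  have hcb : M c b = 1 := by rw [hs, hbc]
  have hdc : M d c = 1 := by rw [hs, hcd]
  have hca : M c a = 0 := by rw [hs, hac]
  have hda : M d a = 0 := by rw [hs, had]
  have hdb : M d b = 0 := by rw [hs, hbd]
  have h2a : M y a = α 0 + (α 0 * M a a + α 1 * M b a + α 2 * M c a + α 3 * M d a) := by
    have := h2 0
    rw [Fin.sum_univ_four] at this
    exact this
  have h2b : M y b = α 1 + (α 0 * M a b + α 1 * M b b + α 2 * M c b + α 3 * M d b) := by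
    have := h2 1
    rw [Fin.sum_univ_four] at this
    exact this
  have h2c : M y c = α 2 + (α 0 * M a c + α 1 * M b c + α 2 * M c c + α 3 * M d c) := by
    have := h2 2
    rw [Fin.sum_univ_four] at this
    exact this
  have h2d : M y d = α 3 + (α 0 * M a d + α 1 * M b d + α 2 * M c d + α 3 * M d d) := by
    have := h2 3
    rw [Fin.sum_univ_four] at this
    exact this
  rw [ha, hba, hca, hda] at h2a
  rw [hab, hb, hcb, hdb] at h2b
  rw [hac, hbc, hcc, hdc] at h2c
  rw [had, hbd, hcd, hd] at h2d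
  rw [Fin.sum_univ_four] at h1
  refine ⟨⟨?_, ?_⟩, ?_⟩
  · rw [h2a, h2d]
    revert h1
    generalize α 0 = A
    generalize α 1 = B
    generalize α 2 = C
    generalize α 3 = D
    revert A B C D
    decide
  · rw [h2b, h2c]
    revert h1
    generalize α 0 = A
    generalize α 1 = B
    generalize α 2 = C
    generalize α 3 = D
    revert A B C D
    decide
  · intro x hx hy1 hy2 hy3
    have h5 := h3 x hx
    rw [Fin.sum_univ_four, Fin.sum_univ_four] at h5
    change M a x + M b x + M c x + M d x = 0 →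
      M y x = α 0 * M a x + α 1 * M b x + α 2 * M c x + α 3 * M d x at h5
    rw [← hy1, ← hy2, ← hy3] at h5
    rw [h5 (by
      generalize M a x = A
      revert A
      decide), ← add_mul, ← add_mul, ← add_mul, h1, one_mul]

/-- **pairs and paths from own points** -/
theorem own_main [Finite X] {M : X → X → ZMod 2} (hs : ∀ x y, M x y = M y x)
    (Y2 : X → X → Set X) (Y4 : X → X → X → X → Set X)
    (h2 : ∀ a b, CP M a b → (∃ g, Half M ![a, b] ∅ g) ∨
      ((Y2 a b).Nonempty ∧ ∀ y ∈ Y2 a b, Half M ![a, b] (Y2 a b) y))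
    (h4 : ∀ a b c d, CQ M a b c d → (∃ g, Half M ![a, b, c, d] ∅ g) ∨
      ((Y4 a b c d).Nonempty ∧ ∀ y ∈ Y4 a b c d, Half M ![a, b, c, d] (Y4 a b c d) y))
    (n2 : ∀ a b, CP M a b → (¬ ∃ g, Half M ![a, b] ∅ g) → ∀ x y, CP M x y →
      (¬ ∃ g, Half M ![x, y] ∅ g) → x ∈ Y2 a b → (y ∈ Y2 a b ∨ y = a) → Y2 x y ⊆ Y2 a b)
    (n4 : ∀ a b, CP M a b → (¬ ∃ g, Half M ![a, b] ∅ g) → ∀ p q r s, CQ M p q r s →
      (¬ ∃ g, Half M ![p, q, r, s] ∅ g) → p ∈ Y2 a b → q ∈ Y2 a b → r ∈ Y2 a b → s ∈ Y2 a b →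
      Y4 p q r s ⊆ Y2 a b) : Pairs M ∧ P4Split M := by
  classical
  have key : ∀ (n : ℕ) (a b : X), (Y2 a b).ncard = n → CP M a b → ∃ g, Half M ![a, b] ∅ g := by
    intro n
    induction n using Nat.strong_induction_on with
    | _ n ih =>
    intro a b hn hab
    by_contra hspl
    rcases h2 a b hab with h | ⟨hne, hown⟩
    · exact hspl h
    set Y := Y2 a b with hY
    have own : ∀ y ∈ Y, M y a = M a a + 1 ∧ M y b = M a a + 1 ∧
        ∀ x, x ∉ Y → M a x = M b x → M y x = M a x := fun y hy => half2 hs hab (hown y hy)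
    have hsplit : ∀ g, M g a = M a a + 1 → M g b = M a a + 1 →
        (∀ x, M a x = M b x → M g x = M a x) → False := by
      intro g h1 h2 h3
      exact hspl ⟨g, half2' hs hab h1 h2 fun x _ => h3 x⟩
    -- a half outside `Y` which agrees outside `Y`
    have hsplit' : ∀ g, g ∉ Y → M g a = M a a + 1 → M g b = M a a + 1 →
        (∀ x, x ∉ Y → M a x = M b x → M g x = M a x) → False := by
      intro g hg h1 h2 h3
      apply hsplit g h1 h2
      intro x hx
      by_cases hxY : x ∈ Y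
      · rw [hs g x, (own x hxY).2.2 g hg (by rw [hs a g, hs b g, h1, h2]), hs a g, h1,
          hs a x, (own x hxY).1]
      · exact h3 x hxY hx
    have hcard : ∀ Z : Set X, Z ⊆ Y → ∀ x ∈ Y, x ∉ Z → Z.ncard < n := by
      intro Z hZ x hx hxZ
      rw [← hn]
      exact Set.ncard_lt_ncard ⟨hZ, fun h => hxZ (h hx)⟩ (Set.toFinite _)
    -- closed pairs in `Y` split in `Y`
    have hpair : ∀ x ∈ Y, ∀ y ∈ Y, CP M x y → ∃ g ∈ Y, M g x = M x x + 1 ∧ M g y = M x x + 1 ∧
        ∀ p, M x p = M y p → M g p = M x p := by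
      intro x hx y hy hxy
      have h5 : ∃ g, Half M ![x, y] ∅ g := by
        by_contra hcon
        have hsub := n2 a b hab hspl x y hxy hcon hx (Or.inl hy)
        refine hcon (ih _ (hcard _ hsub x hx ?_) x y rfl hxy)
        intro hxx
        rcases h2 x y hxy with h | ⟨_, h⟩
        · exact hcon h
        · have h6 := (half2 hs hxy (h x hxx)).1
          revert h6
          generalize M x x = A
          revert A
          decide
      obtain ⟨g, hg⟩ := h5
      obtain ⟨g1, g2, g3⟩ := half2 hs hxy hg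
      have g3' : ∀ p, M x p = M y p → M g p = M x p := fun p => g3 p (Set.notMem_empty p)
      refine ⟨g, ?_, g1, g2, g3'⟩
      by_contra hgY
      obtain ⟨x1, x2, x3⟩ := own x hx
      obtain ⟨y1, y2, y3⟩ := own y hy
      apply hsplit' g hgY
      · rw [g3' a (by rw [x1, y1]), x1]
      · rw [g3' b (by rw [x2, y2]), x2]
      · intro p hp hp2
        rw [g3' p (by rw [x3 p hp hp2, y3 p hp hp2]), x3 p hp hp2]
    have hpath : ∀ p ∈ Y, ∀ q ∈ Y, ∀ r ∈ Y, ∀ s ∈ Y, CQ M p q r s → ∃ g ∈ Y, Bad M p q r s g ∧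
        ∀ x ∈ Y, M p x = M q x → M p x = M r x → M p x = M s x → M g x = M p x := by
      intro p hp q hq r hr s hs' hc
      by_cases h5 : ∃ g, Half M ![p, q, r, s] ∅ g
      · obtain ⟨g, hg⟩ := h5
        obtain ⟨g1, g2⟩ := half4 hs hc hg
        refine ⟨g, ?_, g1, fun x _ => g2 x (Set.notMem_empty x)⟩
        by_contra hgY
        obtain ⟨p1, p2, p3⟩ := own p hp
        obtain ⟨q1, q2, q3⟩ := own q hq
        obtain ⟨r1, r2, r3⟩ := own r hr
        obtain ⟨s1, s2, s3⟩ := own s hs'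
        have g3 : ∀ x, M p x = M q x → M p x = M r x → M p x = M s x → M g x = M p x :=
          fun x => g2 x (Set.notMem_empty x)
        apply hsplit' g hgY
        · rw [g3 a (by rw [p1, q1]) (by rw [p1, r1]) (by rw [p1, s1]), p1]
        · rw [g3 b (by rw [p2, q2]) (by rw [p2, r2]) (by rw [p2, s2]), p2]
        · intro x hx hx2
          rw [g3 x (by rw [p3 x hx hx2, q3 x hx hx2]) (by rw [p3 x hx hx2, r3 x hx hx2])
            (by rw [p3 x hx hx2, s3 x hx hx2]), p3 x hx hx2]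
      · rcases h4 p q r s hc with h | ⟨⟨y, hy⟩, hall⟩
        · exact absurd h h5
        · obtain ⟨y1, y2⟩ := half4 hs hc (hall y hy)
          refine ⟨y, n4 a b hab hspl p q r s hc h5 hp hq hr hs' hy, y1, ?_⟩
          intro x _ hx1 hx2 hx3
          apply y2 x _ hx1 hx2 hx3
          intro hxY
          have := (half4 hs hc (hall x hxY)).1.1
          apply this
          rw [hs x p, hs x s]
          exact hx3
    -- the matrix on `Y`
    set M' : Y → Y → ZMod 2 := fun x y => M x.1 y.1 with hM'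
    have hs1 : ∀ x y, M' x y = M' y x := fun x y => hs _ _
    have hP : Pairs M' := by
      intro u v huv hne'
      obtain ⟨g, hgY, g1, g2, g3⟩ := hpair u.1 u.2 v.1 v.2 ⟨huv, hne'⟩
      have g4 : M g g = M u.1 u.1 + 1 := by
        rw [g3 g (by rw [hs u.1 g, hs v.1 g, g1, g2]), hs u.1 g, g1]
      refine ⟨⟨g, hgY⟩, ?_, ?_, ?_, ?_⟩
      · show M g g ≠ M u.1 u.1
        rw [ne_iff']; exact g4
      · show M g u.1 = M g g
        rw [g1, g4]
      · show M g v.1 = M g g
        rw [g2, g4]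
      · intro x hx
        exact g3 x.1 hx
    have hQ : P4Split M' := by
      intro p q r s hp4 h0 h1 h1' h0'
      obtain ⟨g, hgY, g1, g2⟩ := hpath p.1 p.2 q.1 q.2 r.1 r.2 s.1 s.2
        ⟨⟨hp4.ab, hp4.bc, hp4.cd, hp4.ac, hp4.ad, hp4.bd⟩, h0, h1, h1', h0'⟩
      exact ⟨⟨g, hgY⟩, g1, fun x => g2 x.1 x.2⟩
    have hno := Pool.Agent.H81.P4.P3_holds Y M' hs1 hP hQ
    haveI : Nonempty Y := ⟨⟨hne.some, hne.some_mem⟩⟩
    obtain ⟨r, lam, hr⟩ : ∃ (r : Y) (lam : ZMod 2), ∀ y, M' r y = lam := by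
      rcases Pool.Agent.H81.P4.iso_or_full hs1 hP hno with ⟨x, hx⟩ | ⟨x, hx⟩
      · exact ⟨x, 0, hx⟩
      · exact ⟨x, 1, hx⟩
    have hrY : ∀ y ∈ Y, M r.1 y = lam := fun y hy => hr ⟨y, hy⟩
    obtain ⟨r1, r2, r3⟩ := own r.1 r.2
    by_cases hlam : lam = M a a
    · have hra : CP M r.1 a := by
        refine ⟨?_, ?_⟩
        · rw [hrY r.1 r.2, hlam]
        · rw [hrY r.1 r.2, ne_iff', hlam, r1]
      have h5 : ∃ g, Half M ![r.1, a] ∅ g := by
        by_contra hcon
        have hsub := n2 a b hab hspl r.1 a hra hcon r.2 (Or.inr rfl)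
        rcases h2 r.1 a hra with h | ⟨⟨y, hy⟩, h⟩
        · exact hcon h
        · have h6 := (half2 hs hra (h y hy)).1
          rw [hs y r.1, hrY y (hsub hy), hrY r.1 r.2] at h6
          revert h6
          generalize lam = A
          revert A
          decide
      obtain ⟨g, hg⟩ := h5
      obtain ⟨g1, g2, g3⟩ := half2 hs hra hg
      rw [hrY r.1 r.2, hlam] at g1 g2
      have g3' : ∀ p, M r.1 p = M a p → M g p = M r.1 p := fun p => g3 p (Set.notMem_empty p)
      have hgY : g ∉ Y := by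
        intro hgY
        have h6 := hrY g hgY
        rw [hs r.1 g, g1, hlam] at h6
        revert h6
        generalize M a a = A
        revert A
        decide
      apply hsplit' g hgY g2
      · rw [g3' b (by rw [r2, (ne_iff' _ _).1 hab.2]), r2]
      · intro x hx hx2
        rw [g3' x (r3 x hx hx2), r3 x hx hx2]
    · have hlam' : lam = M a a + 1 := (ne_iff' _ _).1 hlam
      apply hsplit r.1 r1 r2
      intro x hx
      by_cases hxY : x ∈ Y
      · rw [hrY x hxY, hs a x, (own x hxY).1, hlam']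
      · exact r3 x hxY hx
  constructor
  · intro u v huv hne
    obtain ⟨g, hg⟩ := key _ u v rfl ⟨huv, hne⟩
    obtain ⟨g1, g2, g3⟩ := half2 hs ⟨huv, hne⟩ hg
    have g3' : ∀ p, M u p = M v p → M g p = M u p := fun p => g3 p (Set.notMem_empty p)
    have g4 : M g g = M u u + 1 := by
      rw [g3' g (by rw [hs u g, hs v g, g1, g2]), hs u g, g1]
    refine ⟨g, ?_, ?_, ?_, g3'⟩
    · rw [ne_iff']; exact g4
    · rw [g1, g4]
    · rw [g2, g4]
  · intro a b c d hp4 h0 h1 h1' h0'
    have hc : CQ M a b c d := ⟨hp4, h0, h1, h1', h0'⟩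
    rcases h4 a b c d hc with ⟨g, hg⟩ | ⟨⟨y, hy⟩, hall⟩
    · obtain ⟨g1, g2⟩ := half4 hs hc hg
      exact ⟨g, g1, fun x => g2 x (Set.notMem_empty x)⟩
    · obtain ⟨y1, y2⟩ := half4 hs hc (hall y hy)
      refine ⟨y, y1, ?_⟩
      intro x hx1 hx2 hx3
      apply y2 x _ hx1 hx2 hx3
      intro hxY
      have := (half4 hs hc (hall x hxY)).1.1
      apply this
      rw [hs x a, hs x d]
      exact hx3

/-- **pairs and paths from own points** -/
theorem own_rel [Finite X] {M : X → X → ZMod 2} (hs : ∀ x y, M x y = M y x)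
    (S2 : X → X → Set X → Prop) (S4 : X → X → X → X → Set X → Prop)
    (h2 : ∀ a b, CP M a b → (∃ g, Half M ![a, b] ∅ g) ∨ ∃ Y : Set X, Y.Nonempty ∧ S2 a b Y)
    (o2 : ∀ a b Y, CP M a b → S2 a b Y → ∀ y ∈ Y, Half M ![a, b] Y y)
    (h4 : ∀ a b c d, CQ M a b c d → (∃ g, Half M ![a, b, c, d] ∅ g) ∨
      ∃ Y : Set X, Y.Nonempty ∧ S4 a b c d Y)
    (o4 : ∀ a b c d Y, CQ M a b c d → S4 a b c d Y → ∀ y ∈ Y, Half M ![a, b, c, d] Y y)
    (n2 : ∀ a b Y, CP M a b → S2 a b Y → ∀ x y, CP M x y → x ∈ Y → (y ∈ Y ∨ y = a) →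
      (∃ g, Half M ![x, y] ∅ g) ∨ ∃ Y' ⊆ Y, Y'.Nonempty ∧ S2 x y Y')
    (n4 : ∀ a b Y, CP M a b → S2 a b Y → ∀ p q r s, CQ M p q r s →
      p ∈ Y → q ∈ Y → r ∈ Y → s ∈ Y →
      (∃ g, Half M ![p, q, r, s] ∅ g) ∨ ∃ Y' ⊆ Y, Y'.Nonempty ∧ S4 p q r s Y') :
    Pairs M ∧ P4Split M := by
  classical
  have key : ∀ (n : ℕ) (a b : X) (Y : Set X), Y.ncard = n → Y.Nonempty → CP M a b → S2 a b Y →
      ∃ g, Half M ![a, b] ∅ g := by
    intro n
    induction n using Nat.strong_induction_on with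
    | _ n ih =>
    intro a b Y hn hne hab hSY
    by_contra hspl
    have hown := o2 a b Y hab hSY
    have own : ∀ y ∈ Y, M y a = M a a + 1 ∧ M y b = M a a + 1 ∧
        ∀ x, x ∉ Y → M a x = M b x → M y x = M a x := fun y hy => half2 hs hab (hown y hy)
    have hsplit : ∀ g, M g a = M a a + 1 → M g b = M a a + 1 →
        (∀ x, M a x = M b x → M g x = M a x) → False := by
      intro g h1 h2 h3
      exact hspl ⟨g, half2' hs hab h1 h2 fun x _ => h3 x⟩
    -- a half outside `Y` which agrees outside `Y`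
    have hsplit' : ∀ g, g ∉ Y → M g a = M a a + 1 → M g b = M a a + 1 →
        (∀ x, x ∉ Y → M a x = M b x → M g x = M a x) → False := by
      intro g hg h1 h2 h3
      apply hsplit g h1 h2
      intro x hx
      by_cases hxY : x ∈ Y
      · rw [hs g x, (own x hxY).2.2 g hg (by rw [hs a g, hs b g, h1, h2]), hs a g, h1,
          hs a x, (own x hxY).1]
      · exact h3 x hxY hx
    have hcard : ∀ Z : Set X, Z ⊆ Y → ∀ x ∈ Y, x ∉ Z → Z.ncard < n := by
      intro Z hZ x hx hxZ
      rw [← hn]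
      exact Set.ncard_lt_ncard ⟨hZ, fun h => hxZ (h hx)⟩ (Set.toFinite _)
    -- closed pairs in `Y` split in `Y`
    have hpair : ∀ x ∈ Y, ∀ y ∈ Y, CP M x y → ∃ g ∈ Y, M g x = M x x + 1 ∧ M g y = M x x + 1 ∧
        ∀ p, M x p = M y p → M g p = M x p := by
      intro x hx y hy hxy
      have h5 : ∃ g, Half M ![x, y] ∅ g := by
        rcases n2 a b Y hab hSY x y hxy hx (Or.inl hy) with h | ⟨Y', hsub, hne', hS'⟩
        · exact h
        · refine ih _ (hcard _ hsub x hx ?_) x y Y' rfl hne' hxy hS'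
          intro hxx
          have h6 := (half2 hs hxy (o2 x y Y' hxy hS' x hxx)).1
          revert h6
          generalize M x x = A
          revert A
          decide
      obtain ⟨g, hg⟩ := h5
      obtain ⟨g1, g2, g3⟩ := half2 hs hxy hg
      have g3' : ∀ p, M x p = M y p → M g p = M x p := fun p => g3 p (Set.notMem_empty p)
      refine ⟨g, ?_, g1, g2, g3'⟩
      by_contra hgY
      obtain ⟨x1, x2, x3⟩ := own x hx
      obtain ⟨y1, y2, y3⟩ := own y hy
      apply hsplit' g hgY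
      · rw [g3' a (by rw [x1, y1]), x1]
      · rw [g3' b (by rw [x2, y2]), x2]
      · intro p hp hp2
        rw [g3' p (by rw [x3 p hp hp2, y3 p hp hp2]), x3 p hp hp2]
    have hpath : ∀ p ∈ Y, ∀ q ∈ Y, ∀ r ∈ Y, ∀ s ∈ Y, CQ M p q r s → ∃ g ∈ Y, Bad M p q r s g ∧
        ∀ x ∈ Y, M p x = M q x → M p x = M r x → M p x = M s x → M g x = M p x := by
      intro p hp q hq r hr s hs' hc
      rcases n4 a b Y hab hSY p q r s hc hp hq hr hs' with h5 | ⟨Y', hsub, ⟨y, hy⟩, hS'⟩
      · obtain ⟨g, hg⟩ := h5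
        obtain ⟨g1, g2⟩ := half4 hs hc hg
        refine ⟨g, ?_, g1, fun x _ => g2 x (Set.notMem_empty x)⟩
        by_contra hgY
        obtain ⟨p1, p2, p3⟩ := own p hp
        obtain ⟨q1, q2, q3⟩ := own q hq
        obtain ⟨r1, r2, r3⟩ := own r hr
        obtain ⟨s1, s2, s3⟩ := own s hs'
        have g3 : ∀ x, M p x = M q x → M p x = M r x → M p x = M s x → M g x = M p x :=
          fun x => g2 x (Set.notMem_empty x)
        apply hsplit' g hgY
        · rw [g3 a (by rw [p1, q1]) (by rw [p1, r1]) (by rw [p1, s1]), p1]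
        · rw [g3 b (by rw [p2, q2]) (by rw [p2, r2]) (by rw [p2, s2]), p2]
        · intro x hx hx2
          rw [g3 x (by rw [p3 x hx hx2, q3 x hx hx2]) (by rw [p3 x hx hx2, r3 x hx hx2])
            (by rw [p3 x hx hx2, s3 x hx hx2]), p3 x hx hx2]
      · have hall := o4 p q r s Y' hc hS'
        obtain ⟨y1, y2⟩ := half4 hs hc (hall y hy)
        refine ⟨y, hsub hy, y1, ?_⟩
        intro x _ hx1 hx2 hx3
        apply y2 x _ hx1 hx2 hx3
        intro hxY
        have := (half4 hs hc (hall x hxY)).1.1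
        apply this
        rw [hs x p, hs x s]
        exact hx3
    -- the matrix on `Y`
    set M' : Y → Y → ZMod 2 := fun x y => M x.1 y.1 with hM'
    have hs1 : ∀ x y, M' x y = M' y x := fun x y => hs _ _
    have hP : Pairs M' := by
      intro u v huv hne'
      obtain ⟨g, hgY, g1, g2, g3⟩ := hpair u.1 u.2 v.1 v.2 ⟨huv, hne'⟩
      have g4 : M g g = M u.1 u.1 + 1 := by
        rw [g3 g (by rw [hs u.1 g, hs v.1 g, g1, g2]), hs u.1 g, g1]
      refine ⟨⟨g, hgY⟩, ?_, ?_, ?_, ?_⟩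
      · show M g g ≠ M u.1 u.1
        rw [ne_iff']; exact g4
      · show M g u.1 = M g g
        rw [g1, g4]
      · show M g v.1 = M g g
        rw [g2, g4]
      · intro x hx
        exact g3 x.1 hx
    have hQ : P4Split M' := by
      intro p q r s hp4 h0 h1 h1' h0'
      obtain ⟨g, hgY, g1, g2⟩ := hpath p.1 p.2 q.1 q.2 r.1 r.2 s.1 s.2
        ⟨⟨hp4.ab, hp4.bc, hp4.cd, hp4.ac, hp4.ad, hp4.bd⟩, h0, h1, h1', h0'⟩
      exact ⟨⟨g, hgY⟩, g1, fun x => g2 x.1 x.2⟩
    have hno := Pool.Agent.H81.P4.P3_holds Y M' hs1 hP hQ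
    have hYne : Nonempty Y := ⟨⟨hne.some, hne.some_mem⟩⟩
    obtain ⟨r, lam, hr⟩ : ∃ (r : Y) (lam : ZMod 2), ∀ y, M' r y = lam := by
      rcases Pool.Agent.H81.P4.iso_or_full hs1 hP hno with ⟨x, hx⟩ | ⟨x, hx⟩
      · exact ⟨x, 0, hx⟩
      · exact ⟨x, 1, hx⟩
    have hrY : ∀ y ∈ Y, M r.1 y = lam := fun y hy => hr ⟨y, hy⟩
    obtain ⟨r1, r2, r3⟩ := own r.1 r.2
    by_cases hlam : lam = M a a
    · have hra : CP M r.1 a := by
        refine ⟨?_, ?_⟩
        · rw [hrY r.1 r.2, hlam]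
        · rw [hrY r.1 r.2, ne_iff', hlam, r1]
      have h5 : ∃ g, Half M ![r.1, a] ∅ g := by
        rcases n2 a b Y hab hSY r.1 a hra r.2 (Or.inr rfl) with h | ⟨Y', hsub, ⟨y, hy⟩, hS'⟩
        · exact h
        · exfalso
          have h6 := (half2 hs hra (o2 _ _ _ hra hS' y hy)).1
          rw [hs y r.1, hrY y (hsub hy), hrY r.1 r.2] at h6
          revert h6
          generalize lam = A
          revert A
          decide
      obtain ⟨g, hg⟩ := h5
      obtain ⟨g1, g2, g3⟩ := half2 hs hra hg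
      rw [hrY r.1 r.2, hlam] at g1 g2
      have g3' : ∀ p, M r.1 p = M a p → M g p = M r.1 p := fun p => g3 p (Set.notMem_empty p)
      have hgY : g ∉ Y := by
        intro hgY
        have h6 := hrY g hgY
        rw [hs r.1 g, g1, hlam] at h6
        revert h6
        generalize M a a = A
        revert A
        decide
      apply hsplit' g hgY g2
      · rw [g3' b (by rw [r2, (ne_iff' _ _).1 hab.2]), r2]
      · intro x hx hx2
        rw [g3' x (r3 x hx hx2), r3 x hx hx2]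
    · have hlam' : lam = M a a + 1 := (ne_iff' _ _).1 hlam
      apply hsplit r.1 r1 r2
      intro x hx
      by_cases hxY : x ∈ Y
      · rw [hrY x hxY, hs a x, (own x hxY).1, hlam']
      · exact r3 x hxY hx
  constructor
  · intro u v huv hne
    obtain ⟨g, hg⟩ : ∃ g, Half M ![u, v] ∅ g := by
      rcases h2 u v ⟨huv, hne⟩ with h | ⟨Y, hY, hSY⟩
      · exact h
      · exact key _ u v Y rfl hY ⟨huv, hne⟩ hSY
    obtain ⟨g1, g2, g3⟩ := half2 hs ⟨huv, hne⟩ hg
    have g3' : ∀ p, M u p = M v p → M g p = M u p := fun p => g3 p (Set.notMem_empty p)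
    have g4 : M g g = M u u + 1 := by
      rw [g3' g (by rw [hs u g, hs v g, g1, g2]), hs u g, g1]
    refine ⟨g, ?_, ?_, ?_, g3'⟩
    · rw [ne_iff']; exact g4
    · rw [g1, g4]
    · rw [g2, g4]
  · intro a b c d hp4 h0 h1 h1' h0'
    have hc : CQ M a b c d := ⟨hp4, h0, h1, h1', h0'⟩
    rcases h4 a b c d hc with ⟨g, hg⟩ | ⟨Y, ⟨y, hy⟩, hSY⟩
    · obtain ⟨g1, g2⟩ := half4 hs hc hg
      exact ⟨g, g1, fun x => g2 x (Set.notMem_empty x)⟩
    · have hall := o4 a b c d Y hc hSY
      obtain ⟨y1, y2⟩ := half4 hs hc (hall y hy)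
      refine ⟨y, y1, ?_⟩
      intro x hx1 hx2 hx3
      apply y2 x _ hx1 hx2 hx3
      intro hxY
      have := (half4 hs hc (hall x hxY)).1.1
      apply this
      rw [hs x a, hs x d]
      exact hx3

end Pool.Agent.H81.Q
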