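import Pool.Agent.H81.Q.Heart

set_option autoImplicit false

/-!
Closed families in rooted codes with sides (MP_a46c6f_co).
-/

namespace Pool.Agent.H81.Q

open Pool.Agent.H98.Code Pool.Agent.H17.TR Pool.Agent.H6.P4 Pool.Agent.H77.Q
open Pool.Agent.H17.P3 (Pairs IsP4 Bad P4Split)

variable {V : Type} [Fintype V] [DecidableEq V]
variable {B : Submodule (ZMod 2) (V → K)} {H : V → V → ZMod 2} {e : V}
variable {S : (V → K) → Finset V → Prop} {M : V → V → ZMod 2}

/-- the sum of the rows of a family -/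
def sw (M : V → V → ZMod 2) {n : ℕ} (p : Fin n → V) : V → ZMod 2 := fun y => ∑ i, M (p i) y

/-- a closed family -/
structure Fam (M : V → V → ZMod 2) (e : V) {n : ℕ} (p : Fin n → V) : Prop where
  hn : ((n : ℕ) : ZMod 2) = 0
  hn0 : 0 < n
  inj : Function.Injective p
  ne : ∀ i, p i ≠ e
  cl : ∀ j, ∑ i, M (p i) (p j) = 1
  irr : ∀ β : Fin n → ZMod 2, ∑ i, β i = 0 → (∀ j, ∑ i, β i * M (p i) (p j) = β j) →
    (∀ j, β j = 0) ∨ ∀ j, β j = 1

/-- the hypotheses on the matrix -/
structure Inv (H : V → V → ZMod 2) (e : V) (M : V → V → ZMod 2) : Prop where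
  hs : ∀ u v, H u v = H v u
  h0 : ∀ x, M x e = 0
  hl : ∀ x v, Lap H (M x) v = (if v = x then 1 else 0) + (if v = e then 1 else 0)

theorem lap_sum {n : ℕ} (c : Fin n → ZMod 2) (F : Fin n → V → ZMod 2) (v : V) :
    Lap H (fun y => ∑ i, c i * F i y) v = ∑ i, c i * Lap H (F i) v := by
  unfold Lap
  have : ∀ w, H v w * (∑ i, c i * F i v + ∑ i, c i * F i w) =
      ∑ i, c i * (H v w * (F i v + F i w)) := by
    intro w
    rw [← Finset.sum_add_distrib, Finset.mul_sum]
    exact Finset.sum_congr rfl fun i _ => by ring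
  rw [Finset.sum_congr rfl fun w _ => this w, Finset.sum_comm]
  exact Finset.sum_congr rfl fun i _ => by rw [Finset.mul_sum]

section
variable {n : ℕ} {p : Fin n → V}

theorem Inv.sym (hI : Inv H e M) (x y : V) : M x y = M y x := m_sym hI.hs hI.h0 hI.hl x y

/-- a family sum -/
theorem lap_fam (hI : Inv H e M) (p : Fin n → V) (c : Fin n → ZMod 2) (v : V) :
    Lap H (fun y => ∑ i, c i * M (p i) y) v =
      (∑ i, if v = p i then c i else 0) + (if v = e then ∑ i, c i else 0) := by
  rw [lap_sum]
  simp only [hI.hl, mul_add, Finset.sum_add_distrib, mul_ite, mul_one, mul_zero]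
  congr 1
  split_ifs with h
  · rfl
  · simp

theorem sw_eq (M : V → V → ZMod 2) (p : Fin n → V) :
    sw M p = fun y => ∑ i, (1 : ZMod 2) * M (p i) y := by
  funext y
  simp [sw]

theorem lap_sw (hI : Inv H e M) (hp : Fam M e p) (v : V) :
    Lap H (sw M p) v = ∑ i, if v = p i then 1 else 0 := by
  rw [sw_eq, lap_fam hI]
  have : ∑ _i : Fin n, (1 : ZMod 2) = 0 := by
    rw [Finset.sum_const, Finset.card_univ, Fintype.card_fin, nsmul_eq_mul, hp.hn, zero_mul]
  rw [this, ite_self, add_zero]

theorem sum_at (hp : Function.Injective p) (c : Fin n → ZMod 2) (j : Fin n) :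
    (∑ i, if p j = p i then c i else 0) = c j := by
  rw [Finset.sum_eq_single j]
  · rw [if_pos rfl]
  · intro i _ hi
    rw [if_neg]
    intro h
    exact hi (hp h).symm
  · intro h
    exact absurd (Finset.mem_univ j) h

theorem sum_off (c : Fin n → ZMod 2) {v : V} (hv : ∀ j, v ≠ p j) :
    (∑ i, if v = p i then c i else 0) = 0 :=
  Finset.sum_eq_zero fun i _ => by rw [if_neg (hv i)]

theorem sum_range (hp : Function.Injective p) (F : V → ZMod 2) (hF : ∀ v, (∀ j, v ≠ p j) → F v = 0) :
    ∑ v, F v = ∑ i, F (p i) := by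
  have h1 : ∑ v ∈ Finset.univ.image p, F v = ∑ v, F v := by
    apply Finset.sum_subset (Finset.subset_univ _)
    intro v _ hv
    apply hF v
    intro j hj
    exact hv (Finset.mem_image.2 ⟨j, Finset.mem_univ j, hj.symm⟩)
  rw [← h1, Finset.sum_image]
  intro i _ j _ h
  exact hp h

theorem sum_range' (hp : Function.Injective p) {g : V} (hgp : ∀ j, g ≠ p j) (F : V → ZMod 2)
    (hF : ∀ v, v ≠ g → (∀ j, v ≠ p j) → F v = 0) : ∑ v, F v = F g + ∑ i, F (p i) := by
  have h1 : ∑ v ∈ insert g (Finset.univ.image p), F v = ∑ v, F v := by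
    apply Finset.sum_subset (Finset.subset_univ _)
    intro v _ hv
    rw [Finset.mem_insert, not_or, Finset.mem_image] at hv
    apply hF v hv.1
    intro j hj
    exact hv.2 ⟨j, Finset.mem_univ j, hj.symm⟩
  rw [← h1, Finset.sum_insert, Finset.sum_image]
  · intro i _ j _ h
    exact hp h
  · rw [Finset.mem_image]
    rintro ⟨j, _, hj⟩
    exact hgp j hj.symm

variable (hI : Inv H e M) (hp : Fam M e p)
include hI hp

theorem sw_p (j : Fin n) : sw M p (p j) = 1 := hp.cl j

theorem lap_p (j : Fin n) : Lap H (sw M p) (p j) = 1 := by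
  rw [lap_sw hI hp]
  exact sum_at hp.inj (fun _ => 1) j

theorem lap_0 {v : V} (hv : ∀ j, v ≠ p j) : Lap H (sw M p) v = 0 := by
  rw [lap_sw hI hp]
  exact sum_off (fun _ => 1) hv

theorem sw_e : sw M p e = 0 := Finset.sum_eq_zero fun i _ => hI.h0 (p i)

theorem u_e : wd H (sw M p) e = 0 := by
  refine zero_of_lap (sw_e hI hp) (lap_0 hI hp fun j h => hp.ne j h.symm)

theorem u_p (j : Fin n) : wd H (sw M p) (p j) ≠ 0 := by
  intro h
  have h1 := (lap_of_zero h).1
  rw [sw_p hI hp] at h1
  exact one_ne_zero h1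

theorem u_0 {v : V} (h : sw M p v = 0) : wd H (sw M p) v = 0 := by
  refine zero_of_lap h (lap_0 hI hp fun j hj => ?_)
  rw [hj, sw_p hI hp] at h
  exact one_ne_zero h

theorem of_u {v : V} (h : wd H (sw M p) v ≠ 0) : sw M p v = 1 := by
  rcases z2 (sw M p v) with h1 | h1
  · exact absurd (u_0 hI hp h1) h
  · exact h1

theorem u_zf : ZFree (wd H (sw M p)) := fun v => ne_z fun h => by
  have h1 := u_0 (H := H) hI hp h
  exact (lap_of_zero h1).2

theorem u_ne : wd H (sw M p) ≠ 0 := fun h => u_p hI hp ⟨0, hp.hn0⟩ (congrFun h _)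

theorem u_irr (hH : IsMat B H) : Irr B (wd H (sw M p)) := by
  intro d hd hle
  have hc := eq_wd hH hd
  set f : V → ZMod 2 := fun v => (d v).1 with hf
  have hfe : f e = 0 := by
    rcases hle e with h | h
    · show (d e).1 = 0
      rw [h]; rfl
    · show (d e).1 = 0
      rw [h, u_e hI hp]; rfl
  have hoff : ∀ v, (∀ j, v ≠ p j) → Lap H f v = 0 := by
    intro v hv
    rcases hle v with h | h
    · rw [hc] at h
      exact (lap_of_zero h).2
    · rw [hc] at h
      rw [(of_wd_eq h).2, lap_0 hI hp hv]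
  set β : Fin n → ZMod 2 := fun j => Lap H f (p j) with hβ
  have hsum : ∑ i, β i = 0 := by
    rw [← sum_lap hH.sym f, sum_range hp.inj _ hoff]
  have hfv : ∀ y, f y = ∑ i, β i * M (p i) y := by
    intro y
    rw [recon hI.hs hI.h0 hI.hl f hfe y, sum_range hp.inj (fun v => Lap H f v * M v y)]
    intro v hv
    rw [hoff v hv, zero_mul]
  have hb : ∀ j, ∑ i, β i * M (p i) (p j) = β j := by
    intro j
    rw [← hfv]
    rcases hle (p j) with h | h
    · rw [hc] at h
      have h1 := lap_of_zero h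
      rw [h1.1]
      exact h1.2.symm
    · rw [hc] at h
      have h1 := of_wd_eq h
      rw [h1.1, sw_p hI hp]
      show 1 = Lap H f (p j)
      rw [h1.2, lap_p hI hp]
  rcases hp.irr β hsum hb with h | h
  · left
    have h1 : f = 0 := by
      funext y
      rw [hfv]
      exact Finset.sum_eq_zero fun i _ => by rw [h i, zero_mul]
    rw [hc, h1]
    funext v
    exact zero_of_lap rfl (by simp [Lap])
  · right
    have h1 : f = sw M p := by
      funext y
      rw [hfv]
      exact Finset.sum_congr rfl fun i _ => by rw [h i, one_mul]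
    rw [hc, h1]

/-- a splitting -/
theorem half_of_splits (hH : IsMat B H) {g : V} (h : Splits B (wd H (sw M p)) g) :
    Half M p ∅ g := by
  obtain ⟨f₁, f₂, hs, hg1, hg2, hd⟩ := raw_of_splits hH h
  have hsum : ∀ v, f₁ v + f₂ v = sw M p v := fun v => congrFun hs v
  have hlsum : ∀ v, Lap H f₁ v + Lap H f₂ v = Lap H (sw M p) v := by
    intro v
    rw [← hs, lap_add]
  have hgp : ∀ j, g ≠ p j := by
    intro j hj
    have h1 := hsum g
    rw [(lap_of_z hg1).1, (lap_of_z hg2).1, hj, sw_p hI hp] at h1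
    exact absurd h1 (by decide)
  have hout : ∀ v, v ≠ g → (∀ j, v ≠ p j) → Lap H f₁ v = 0 := by
    intro v hv hvp
    rcases hd v hv with h1 | h1
    · exact (lap_of_zero h1).2
    · have h2 := hlsum v
      rw [(lap_of_zero h1).2, lap_0 hI hp hvp, add_zero] at h2
      exact h2
  have hfe : f₁ e = 0 := by
    by_cases hge : e = g
    · rw [hge]
      exact (lap_of_z hg1).1
    · rcases hd e hge with h1 | h1
      · exact (lap_of_zero h1).1
      · have h2 := hsum e
        rw [(lap_of_zero h1).1, sw_e hI hp, add_zero] at h2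
        exact h2
  have hf1 : ∀ y, f₁ y = M g y + ∑ i, Lap H f₁ (p i) * M (p i) y := by
    intro y
    rw [recon hI.hs hI.h0 hI.hl f₁ hfe y, sum_range' hp.inj hgp (fun v => Lap H f₁ v * M v y),
      (lap_of_z hg1).2, one_mul]
    intro v hv hvp
    rw [hout v hv hvp, zero_mul]
  refine ⟨fun i => Lap H f₁ (p i), ?_, ?_, ?_⟩
  · have h1 := sum_lap hH.sym f₁
    rw [sum_range' hp.inj hgp (fun v => Lap H f₁ v) hout, (lap_of_z hg1).2] at h1
    revert h1
    generalize (∑ i, Lap H f₁ (p i)) = A
    revert A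
    decide
  · intro j
    have h1 := hf1 (p j)
    have h2 : sw M p (p j) = 1 := hp.cl j
    have h3 := hsum (p j)
    have h4 := hlsum (p j)
    rw [lap_p hI hp] at h4
    rcases hd (p j) (hgp j).symm with h5 | h5
    · rw [(lap_of_zero h5).1] at h1
      beta_reduce
      rw [(lap_of_zero h5).2, zero_add]
      exact (CharTwo.add_eq_zero.1 h1.symm)
    · rw [(lap_of_zero h5).1, add_zero, h2] at h3
      rw [(lap_of_zero h5).2, add_zero] at h4
      rw [h3] at h1
      beta_reduce
      rw [h4]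
      revert h1
      generalize (∑ i, Lap H f₁ (p i) * M (p i) (p j)) = A
      generalize M g (p j) = B
      revert A B
      decide
  · intro y _ hy
    have h1 := hf1 y
    have h2 : f₁ y = 0 := by
      by_cases hyg : y = g
      · rw [hyg]
        exact (lap_of_z hg1).1
      · rcases hd y hyg with h3 | h3
        · exact (lap_of_zero h3).1
        · have h4 := hsum y
          have h5 : sw M p y = 0 := hy
          rw [(lap_of_zero h3).1, h5, add_zero] at h4
          exact h4
    rw [h2] at h1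
    exact (CharTwo.add_eq_zero.1 h1.symm)

/-- an own point -/
theorem half_of_own (hH : IsMat B H) (hS : RSides B e S) {Y : Finset V}
    (hSY : S (wd H (sw M p)) Y) {y : V} (hy : y ∈ Y) (μ : ZMod 2) (J : Fin n → ZMod 2)
    (hJ : ∀ j, M y (p j) + μ + ∑ i, J i * M (p i) (p j) = J j) : Half M p (Y : Set V) y := by
  have huy : wd H (sw M p) y = 0 := hS.zero _ _ hSY y hy
  have hye : y ≠ e := fun h => hS.root _ _ hSY (h ▸ hy)
  have hyp : ∀ j, y ≠ p j := fun j h => u_p (H := H) hI hp j (h ▸ huy)
  set fq : V → ZMod 2 := (M y + fun _ => μ) + fun v => ∑ i, J i * M (p i) v with hfq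
  have hlμ : ∀ v, Lap H (fun _ => μ) v = 0 := by
    intro v
    unfold Lap
    refine Finset.sum_eq_zero fun w _ => ?_
    rw [CharTwo.add_self_eq_zero, mul_zero]
  have hlq : ∀ v, v ≠ e → Lap H fq v = (if v = y then 1 else 0) + ∑ i, if v = p i then J i else 0 := by
    intro v hv
    rw [hfq, lap_add, lap_add, hlμ, lap_fam hI, hI.hl, if_neg hv, if_neg hv]
    ring
  have hqv : ∀ v, fq v = M y v + μ + ∑ i, J i * M (p i) v := fun v => rfl
  obtain ⟨k', hk', k1, k2, k3⟩ := hS.part _ _ hSY (wd H fq) (wd_mem hH _) (by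
    intro v hv
    have hve : v ≠ e := fun h => hv (by rw [h]; exact u_e hI hp)
    have hvy : v ≠ y := fun h => hv (by rw [h]; exact huy)
    have hlv := hlq v hve
    rw [if_neg hvy, zero_add] at hlv
    by_cases hvp : ∃ j, v = p j
    · obtain ⟨j, rfl⟩ := hvp
      rw [sum_at hp.inj] at hlv
      have h1 : fq (p j) = J j := by rw [hqv]; exact hJ j
      rcases z2 (J j) with h2 | h2
      · left
        rw [h2] at h1 hlv
        exact zero_of_lap h1 hlv
      · right
        rw [h2] at h1 hlv
        exact wd_eq (by rw [h1, sw_p hI hp]) (by rw [hlv, lap_p hI hp])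
    · push Not at hvp
      rw [sum_off J hvp] at hlv
      rcases z2 (fq v) with h1 | h1
      · exact Or.inl (zero_of_lap h1 hlv)
      · right
        exact wd_eq (by rw [h1, of_u hI hp hv]) (by rw [hlv, lap_0 hI hp hvp]))
  have hc := eq_wd hH hk'
  set c : V → ZMod 2 := fun v => (k' v).1 with hcd
  have hke : k' e = 0 := k2 e (u_e hI hp) (hS.root _ _ hSY)
  have hce : c e = 0 := by show (k' e).1 = 0; rw [hke]; rfl
  have hoff : ∀ v, v ≠ y → (∀ j, v ≠ p j) → Lap H c v = 0 := by
    intro v hvy hvp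
    by_cases hv : wd H (sw M p) v = 0
    · by_cases hvY : v ∈ Y
      · have h1 := k1 v hvY
        rw [hc] at h1
        have hve : v ≠ e := fun h => hS.root _ _ hSY (h ▸ hvY)
        rw [(of_wd_eq h1).2, hlq v hve, if_neg hvy, sum_off J hvp, add_zero]
      · have h1 := k2 v hv hvY
        rw [hc] at h1
        exact (lap_of_zero h1).2
    · rcases k3 v hv with h1 | h1
      · rw [hc] at h1
        exact (lap_of_zero h1).2
      · rw [hc] at h1
        rw [(of_wd_eq h1).2, lap_0 hI hp hvp]
  have hcy : Lap H c y = 1 := by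
    have h1 := k1 y hy
    rw [hc] at h1
    rw [(of_wd_eq h1).2, hlq y hye, if_pos rfl, sum_off J hyp, add_zero]
  have hcv : ∀ x, c x = M y x + ∑ i, Lap H c (p i) * M (p i) x := by
    intro x
    rw [recon hI.hs hI.h0 hI.hl c hce x, sum_range' hp.inj hyp (fun v => Lap H c v * M v x), hcy,
      one_mul]
    intro v hv hvp
    rw [hoff v hv hvp, zero_mul]
  refine ⟨fun i => Lap H c (p i), ?_, ?_, ?_⟩
  · have h1 := sum_lap hH.sym c
    rw [sum_range' hp.inj hyp (fun v => Lap H c v) hoff, hcy] at h1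
    revert h1
    generalize (∑ i, Lap H c (p i)) = A
    revert A
    decide
  · intro j
    have h1 := hcv (p j)
    have h2 : c (p j) = Lap H c (p j) := by
      rcases k3 (p j) (u_p hI hp j) with h3 | h3
      · rw [hc] at h3
        rw [(lap_of_zero h3).1, (lap_of_zero h3).2]
      · rw [hc] at h3
        rw [(of_wd_eq h3).1, (of_wd_eq h3).2, sw_p hI hp, lap_p hI hp]
    rw [h2] at h1
    beta_reduce
    revert h1
    generalize (∑ i, Lap H c (p i) * M (p i) (p j)) = A
    generalize M y (p j) = B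
    generalize Lap H c (p j) = C
    revert A B C
    decide
  · intro x hxY hx
    have hux : wd H (sw M p) x = 0 := u_0 hI hp hx
    have h1 := k2 x hux (fun h => hxY (Finset.mem_coe.2 h))
    rw [hc] at h1
    have h2 := hcv x
    rw [(lap_of_zero h1).1] at h2
    exact (CharTwo.add_eq_zero.1 h2.symm)

end

end Pool.Agent.H81.Q
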