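import Pool.Agent.H81.Q.Tree
import Pool.Agent.H31.Q.Plug
import Pool.Agent.H16.FQ.Plug

set_option autoImplicit false

/-!
Every critical contra pair on a permutation graph is the Petersen pair (MP_a46c6f_co).
-/

namespace Pool.Agent.H81.Q

open SimpleGraph Pool.Agent.H5.Goddyn Pool.Agent.H98.TC Pool.Agent.H64.Pent Pool.Agent.H98.Code

theorem heart : Pool.Agent.H16.FQ.Heart := fun _ _ _ _ _ _ hB hz hS => tree_of_sides hB hz hS

theorem heartB : Pool.Agent.H31.Q.HeartB := fun _ _ _ _ _ _ hB hz hS => tree_of_sides hB hz hS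

/-- a critical contra pair on a permutation graph is the Petersen pair -/
theorem main {V : Type*} [Finite V] (G : SimpleGraph V) (M C₁ C₂ : G.Subgraph)
    (h : IsPermutationGraph G M C₁ C₂) (hcrit : IsCriticalContraPair G (wt M)) :
    IsPetersenPair G M :=
  Pool.Agent.H16.FQ.petersen_of_heart heart G M C₁ C₂ h hcrit.2

/-- the same through the other frame -/
theorem main' {V : Type*} [Finite V] (G : SimpleGraph V) (M C₁ C₂ : G.Subgraph)
    (h : IsPermutationGraph G M C₁ C₂) (hcrit : IsCriticalContraPair G (wt M)) :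
    IsPetersenPair G M :=
  Pool.Agent.H31.Q.main_of heartB G M C₁ C₂ h hcrit.2

end Pool.Agent.H81.Q
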