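import Pool.Agent.H81.Q.Own
import Pool.Agent.H77.Q.Defs
import Pool.Agent.H6.P4.Side

set_option autoImplicit false

/-!
Rooted codes with sides (MP_a46c6f_co): the inverse of the reduced Laplacian has midpoints and bad
points.
-/

namespace Pool.Agent.H81.Q

open Pool.Agent.H98.Code Pool.Agent.H17.TR Pool.Agent.H6.P4 Pool.Agent.H77.Q
open Pool.Agent.H17.P3 (Pairs IsP4 Bad P4Split)

variable {V : Type} [Fintype V] [DecidableEq V]
variable {B : Submodule (ZMod 2) (V → K)} {H : V → V → ZMod 2} {e : V}
variable {S : (V → K) → Finset V → Prop} {M : V → V → ZMod 2}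

theorem kk : ∀ a : K, a + a = 0 := by decide

theorem z2 : ∀ a : ZMod 2, a = 0 ∨ a = 1 := by decide

/-- below a word there is an irreducible word with a letter at a given place -/
theorem exists_irr (v0 : V) : ∀ (n : ℕ) (u : V → K), u ∈ B → u v0 ≠ 0 →
    (Finset.univ.filter fun v => u v ≠ 0).card = n →
    ∃ w ∈ B, (∀ v, w v = 0 ∨ w v = u v) ∧ w v0 ≠ 0 ∧ Irr B w := by
  classical
  intro n
  induction n using Nat.strong_induction_on with
  | _ n ih =>
  intro u hu hv hn
  by_cases hi : Irr B u
  · exact ⟨u, hu, fun v => Or.inr rfl, hv, hi⟩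
  unfold Irr at hi
  push Not at hi
  obtain ⟨d, hd, hle, h0, h1⟩ := hi
  have hsub : ∀ w : V → K, (∀ v, w v = 0 ∨ w v = u v) → w ≠ u →
      (Finset.univ.filter fun v => w v ≠ 0).card < n := by
    intro w hw hne
    rw [← hn]
    apply Finset.card_lt_card
    rw [Finset.ssubset_iff_of_subset]
    · by_contra hcon
      push Not at hcon
      apply hne
      funext v
      rcases hw v with h2 | h2
      · by_contra h3
        have h4 : v ∈ Finset.univ.filter fun v => u v ≠ 0 := by
          rw [Finset.mem_filter]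
          exact ⟨Finset.mem_univ _, fun h5 => h3 (by rw [h2, h5])⟩
        have h5 := hcon v h4
        rw [Finset.mem_filter] at h5
        exact h5.2 h2
      · exact h2
    · intro v hv'
      rw [Finset.mem_filter] at hv' ⊢
      refine ⟨Finset.mem_univ _, ?_⟩
      rcases hw v with h2 | h2
      · exact absurd h2 hv'.2
      · rw [← h2]; exact hv'.2
  by_cases hdv : d v0 = 0
  · have hle2 : ∀ v, (u + d) v = 0 ∨ (u + d) v = u v := by
      intro v
      rw [Pi.add_apply]
      rcases hle v with h2 | h2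
      · right; rw [h2, add_zero]
      · left; rw [h2, kk]
    have hne : u + d ≠ u := by
      intro h2
      apply h0
      funext v
      have := congrFun h2 v
      rw [Pi.add_apply] at this
      exact add_left_cancel (this.trans (add_zero _).symm)
    obtain ⟨w, hw, h3, h4, h5⟩ := ih _ (hsub _ hle2 hne) (u + d) (B.add_mem hu hd)
      (by rw [Pi.add_apply, hdv, add_zero]; exact hv) rfl
    refine ⟨w, hw, fun v => ?_, h4, h5⟩
    rcases h3 v with h6 | h6
    · exact Or.inl h6
    · rw [h6]; exact hle2 v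
  · obtain ⟨w, hw, h3, h4, h5⟩ := ih _ (hsub _ hle h1) d hd hdv rfl
    refine ⟨w, hw, fun v => ?_, h4, h5⟩
    rcases h3 v with h6 | h6
    · exact Or.inl h6
    · rw [h6]; exact hle v

theorem wd_eq {f f' : V → ZMod 2} {v : V} (h1 : f v = f' v) (h2 : Lap H f v = Lap H f' v) :
    wd H f v = wd H f' v := by
  rw [lap_eq, lap_eq, h1] at h2
  exact Prod.ext h1 (add_left_cancel h2)

theorem of_wd_eq {f f' : V → ZMod 2} {v : V} (h : wd H f v = wd H f' v) :
    f v = f' v ∧ Lap H f v = Lap H f' v := by
  have h1 : f v = f' v := congrArg Prod.fst h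
  refine ⟨h1, ?_⟩
  rw [lap_wd, lap_wd, h]

theorem ne_z {f : V → ZMod 2} {v : V} (h : f v = 0 → Lap H f v = 0) : wd H f v ≠ z := by
  intro hz
  have h1 := lap_of_z hz
  rw [h h1.1] at h1
  exact zero_ne_one h1.2

theorem raw_of_splits (hH : IsMat B H) {s : V → ZMod 2} {g : V} (h : Splits B (wd H s) g) :
    ∃ (f₁ f₂ : V → ZMod 2), f₁ + f₂ = s ∧ wd H f₁ g = z ∧ wd H f₂ g = z ∧
      ∀ v, v ≠ g → wd H f₁ v = 0 ∨ wd H f₂ v = 0 := by
  obtain ⟨c₁, hc₁, c₂, hc₂, hs, hg1, hg2, hd⟩ := h
  have e1 := eq_wd hH hc₁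
  have e2 := eq_wd hH hc₂
  refine ⟨fun v => (c₁ v).1, fun v => (c₂ v).1, ?_, ?_, ?_, ?_⟩
  · funext v
    have := congrArg Prod.fst (congrFun hs v)
    exact this
  · rw [← e1]
    exact hg1
  · rw [← e2]
    exact hg2
  · rw [← e1, ← e2]
    exact hd

theorem no_split_ker (hH : IsMat B H) {s : V → ZMod 2} (hl : ∀ v, Lap H s v = 0) {g : V}
    (h : Splits B (wd H s) g) : False := by
  obtain ⟨f₁, f₂, hs, hg1, hg2, hd⟩ := raw_of_splits hH h
  have h1 := sum_lap hH.sym f₁
  rw [Fintype.sum_eq_single g] at h1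
  · rw [(lap_of_z hg1).2] at h1
    exact one_ne_zero h1
  · intro v hv
    rcases hd v hv with h2 | h2
    · exact (lap_of_zero h2).2
    · have h3 := lap_add H f₁ f₂ v
      rw [hs, hl, (lap_of_zero h2).2, add_zero] at h3
      exact h3.symm

theorem lap_one (v : V) : Lap H (fun _ => (1 : ZMod 2)) v = 0 := by
  unfold Lap
  refine Finset.sum_eq_zero fun w _ => ?_
  rw [show (1 : ZMod 2) + 1 = 0 from by decide, mul_zero]

theorem ker_side (hH : IsMat B H) (hS : RSides B e S) : ∀ (n : ℕ) (Y : Finset V)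
    (d : V → ZMod 2), Y.card = n → Y.Nonempty → Irr B (wd H d) → d e = 0 →
    (∀ v, Lap H d v = 0) → S (wd H d) Y → False := by
  classical
  intro n
  induction n using Nat.strong_induction_on with
  | _ n ih =>
  intro Y d hn ⟨v0, hv0⟩ hirr hde hl hSY
  have hu0 : ∀ v, wd H d v ≠ 0 → d v = 1 := by
    intro v hv
    rcases z2 (d v) with h | h
    · exact absurd (zero_of_lap h (hl v)) hv
    · exact h
  obtain ⟨k', hk', k1, k2, k3⟩ := hS.part _ _ hSY (wd H fun _ => 1) (wd_mem hH _) (by
    intro v hv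
    right
    exact wd_eq (hu0 v hv).symm (by rw [lap_one, hl]))
  have hc := eq_wd hH hk'
  set c : V → ZMod 2 := fun v => (k' v).1 with hcd
  have hlc : ∀ v, Lap H c v = 0 := by
    intro v
    by_cases hv : wd H d v = 0
    · by_cases hvY : v ∈ Y
      · have h1 := k1 v hvY
        rw [hc] at h1
        rw [(of_wd_eq h1).2, lap_one]
      · have h1 := k2 v hv hvY
        rw [hc] at h1
        exact (lap_of_zero h1).2
    · rcases k3 v hv with h1 | h1
      · rw [hc] at h1
        exact (lap_of_zero h1).2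
      · rw [hc] at h1
        rw [(of_wd_eq h1).2, hl]
  have hue : wd H d e = 0 := zero_of_lap hde (hl e)
  have hke : k' e = 0 := k2 e hue (hS.root _ _ hSY)
  have hkv0 : k' v0 ≠ 0 := by
    rw [k1 v0 hv0]
    intro h1
    exact one_ne_zero (lap_of_zero h1).1
  obtain ⟨w, hw, w1, w2, w3⟩ := exists_irr v0 _ k' hk' hkv0 rfl
  have hcw := eq_wd hH hw
  set c' : V → ZMod 2 := fun v => (w v).1 with hcd'
  have hlc' : ∀ v, Lap H c' v = 0 := by
    intro v
    rcases w1 v with h1 | h1
    · rw [hcw] at h1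
      exact (lap_of_zero h1).2
    · rw [hcw, hc] at h1
      rw [(of_wd_eq h1).2, hlc]
  have hw0 : w ≠ 0 := fun h => w2 (congrFun h v0)
  have hwz : ZFree w := by
    intro v
    rw [hcw]
    exact ne_z fun _ => hlc' v
  have hwe : w e = 0 := by
    rcases w1 e with h1 | h1
    · exact h1
    · rw [h1]; exact hke
  rcases hS.mono _ _ hSY hirr w hw hwz hw0 w3 (by
      intro v hv
      rcases w1 v with h1 | h1
      · exact Or.inl h1
      · rw [h1]; exact k3 v hv) (by
      intro v hv hvY
      rcases w1 v with h1 | h1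
      · exact h1
      · rw [h1]; exact k2 v hv hvY) with ⟨g, hg⟩ | ⟨Y', hY', hne, hSw⟩
  · rw [hcw] at hg
    exact no_split_ker hH hlc' hg
  · rw [hcw] at hSw w3
    refine ih Y'.card ?_ Y' c' rfl hne w3 (by rw [hcd']; show (w e).1 = 0; rw [hwe]; rfl) hlc' hSw
    rw [← hn]
    apply Finset.card_lt_card
    refine ⟨hY', fun h => ?_⟩
    have h1 := hS.zero _ _ hSw v0 (h hv0)
    rw [← hcw] at h1
    exact w2 h1

/-- the kernel is zero -/
theorem kerR (hH : IsMat B H) (hS : RSides B e S) (f : V → ZMod 2) (he : f e = 0)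
    (h : ∀ v, Lap H f v = 0) : f = 0 := by
  by_contra hf
  obtain ⟨v0, hv0⟩ : ∃ v, f v ≠ 0 := by
    by_contra hcon
    push Not at hcon
    exact hf (funext hcon)
  have hu : wd H f v0 ≠ 0 := fun h1 => hv0 (lap_of_zero h1).1
  obtain ⟨w, hw, w1, w2, w3⟩ := exists_irr v0 _ (wd H f) (wd_mem hH f) hu rfl
  have hcw := eq_wd hH hw
  set c' : V → ZMod 2 := fun v => (w v).1 with hcd'
  have hlc' : ∀ v, Lap H c' v = 0 := by
    intro v
    rcases w1 v with h1 | h1
    · rw [hcw] at h1
      exact (lap_of_zero h1).2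
    · rw [hcw] at h1
      rw [(of_wd_eq h1).2, h]
  have hw0 : w ≠ 0 := fun h => w2 (congrFun h v0)
  have hwz : ZFree w := by
    intro v
    rw [hcw]
    exact ne_z fun _ => hlc' v
  have hwe : w e = 0 := by
    rcases w1 e with h1 | h1
    · exact h1
    · rw [h1]; exact zero_of_lap he (h e)
  rcases hS.ex w hw hwz hwe hw0 w3 with ⟨g, hg⟩ | ⟨Y, hne, hSY⟩
  · rw [hcw] at hg
    exact no_split_ker hH hlc' hg
  · rw [hcw] at hSY w3
    exact ker_side hH hS _ Y c' rfl hne w3 (by show (w e).1 = 0; rw [hwe]; rfl) hlc' hSY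

/-- the inverse of the reduced Laplacian -/
theorem exists_invR (hH : IsMat B H) (hS : RSides B e S) : ∃ M : V → V → ZMod 2,
    (∀ x, M x e = 0) ∧
      ∀ x v, Lap H (M x) v = (if v = x then 1 else 0) + (if v = e then 1 else 0) := by
  set R : (V → ZMod 2) →+ (V → ZMod 2) :=
    { toFun := fun f v => if v = e then f e else Lap H f v
      map_zero' := by
        funext v
        by_cases hv : v = e
        · simp [hv]
        · simp [hv, Lap]
      map_add' := by
        intro f g
        funext v
        by_cases hv : v = e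
        · simp [hv]
        · simp [hv, lap_add] } with hR
  have hval : ∀ f v, R f v = if v = e then f e else Lap H f v := fun f v => rfl
  have hinj : Function.Injective R := by
    rw [injective_iff_map_eq_zero]
    intro f hf
    have h0 : f e = 0 := by
      have h1 := congrFun hf e
      rw [hval, if_pos rfl] at h1
      exact h1
    have h2 : ∀ v, v ≠ e → Lap H f v = 0 := by
      intro v hv
      have h1 := congrFun hf v
      rw [hval, if_neg hv] at h1
      exact h1
    apply kerR hH hS f h0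
    intro v
    by_cases hv : v = e
    · have h1 := sum_lap hH.sym f
      rw [Fintype.sum_eq_single e h2] at h1
      rw [hv]
      exact h1
    · exact h2 v hv
  have hsur : Function.Surjective R := Finite.injective_iff_surjective.1 hinj
  choose M hM using fun x : V => hsur (fun v => if v = e then 0 else if v = x then 1 else 0)
  have h0 : ∀ x, M x e = 0 := by
    intro x
    have h1 := congrFun (hM x) e
    rw [hval, if_pos rfl, if_pos rfl] at h1
    exact h1
  have h1 : ∀ x v, v ≠ e → Lap H (M x) v = if v = x then 1 else 0 := by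
    intro x v hv
    have h2 := congrFun (hM x) v
    rw [hval, if_neg hv, if_neg hv] at h2
    exact h2
  refine ⟨M, h0, fun x v => ?_⟩
  by_cases hv : v = e
  · subst hv
    have h2 := sum_lap hH.sym (M x)
    rw [Fintype.sum_eq_add_sum_subtype_ne _ v] at h2
    have h3 : ∑ i : {w // w ≠ v}, Lap H (M x) i.1 = ∑ i : {w // w ≠ v}, if i.1 = x then 1 else 0 :=
      Finset.sum_congr rfl fun i _ => h1 x i.1 i.2
    have h4 : ∑ w, (if w = x then (1 : ZMod 2) else 0) = 1 := by
      rw [Finset.sum_ite_eq' Finset.univ x, if_pos (Finset.mem_univ x)]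
    rw [Fintype.sum_eq_add_sum_subtype_ne _ v, ← h3] at h4
    rw [if_pos rfl]
    revert h2 h4
    generalize Lap H (M x) v = A
    generalize (∑ i : {w // w ≠ v}, Lap H (M x) i.1) = B
    generalize (if v = x then (1 : ZMod 2) else 0) = C
    revert A B C
    decide
  · rw [h1 x v hv, if_neg hv, add_zero]

end Pool.Agent.H81.Q
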